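import Mathlib

/-!
# Locally dependent random graphs: definitions
-/

namespace Pool.Agent.H96Dep

open MeasureTheory ProbabilityTheory Filter Asymptotics

/-- The potential edges of a graph with vertex set `[n]`. -/
abbrev PotEdge (n : ℕ) := {e : Sym2 (Fin n) // ¬ e.IsDiag}

/-- The (finite) set of graphs on `[n]` carries the discrete sigma-algebra. -/
instance graphMeasurableSpace (n : ℕ) : MeasurableSpace (SimpleGraph (Fin n)) := ⊤

/-- The potential edge `e` is present in `G`. -/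
def present {n : ℕ} (e : PotEdge n) (G : SimpleGraph (Fin n)) : Prop := e.1 ∈ G.edgeSet

/-- `D` is a dependency graph for the edge indicators under `μ`: each indicator is independent of
the family of the indicators of all the non-adjacent edges. -/
def IsDependencyGraph {n : ℕ} (D : SimpleGraph (PotEdge n)) (μ : Measure (SimpleGraph (Fin n))) :
    Prop :=
  ∀ e : PotEdge n, IndepFun (fun G => present e G)
    (fun G (f : {f : PotEdge n // f ≠ e ∧ ¬ D.Adj e f}) => present f.1 G) μ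

/-- `μ` is (the law of) a `d`-dependent random graph `G_{n,p,d}`. -/
structure IsDepRandomGraph (n : ℕ) (p : ℝ) (d : ℕ) (μ : Measure (SimpleGraph (Fin n))) : Prop where
  prob : IsProbabilityMeasure μ
  edge : ∀ e : PotEdge n, μ {G | present e G} = ENNReal.ofReal p
  dep : ∃ D : SimpleGraph (PotEdge n), (∀ e, (D.neighborSet e).ncard ≤ d) ∧ IsDependencyGraph D μ

/-- A monotone increasing graph property (closed under isomorphism and adding edges). -/
structure IsMonotoneProperty (P : ∀ n : ℕ, SimpleGraph (Fin n) → Prop) : Prop where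
  mono : ∀ (n : ℕ) (G H : SimpleGraph (Fin n)), G ≤ H → P n G → P n H
  iso : ∀ (n : ℕ) (G H : SimpleGraph (Fin n)), Nonempty (G ≃g H) → P n G → P n H

/-- `P` holds almost surely (with probability tending to one) along `μ`. -/
def ASHas (P : ∀ n : ℕ, SimpleGraph (Fin n) → Prop)
    (μ : ∀ n : ℕ, Measure (SimpleGraph (Fin n))) : Prop :=
  Tendsto (fun n => μ n {G | P n G}) atTop (nhds 1)

/-- `P` fails almost surely (with probability tending to one) along `μ`. -/
def ASLacks (P : ∀ n : ℕ, SimpleGraph (Fin n) → Prop)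
    (μ : ∀ n : ℕ, Measure (SimpleGraph (Fin n))) : Prop :=
  Tendsto (fun n => μ n {G | ¬ P n G}) atTop (nhds 1)

/-- the admissible dependency parameters: `d = d(n) = O(n / ln n)`. -/
def Admissible (d : ℕ → ℕ) : Prop :=
  (fun n => (d n : ℝ)) =O[atTop] (fun n : ℕ => (n : ℝ) / Real.log n)

/-- `(L, U)` is a threshold pair for `P`. -/
structure IsThresholdPair (P : ∀ n : ℕ, SimpleGraph (Fin n) → Prop) (L U : ℕ → ℕ → ℝ) : Prop where
  pos : ∀ n d, 1 ≤ n → 0 < L n d
  le : ∀ n d, L n d ≤ U n d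
  lower : ∀ (d : ℕ → ℕ) (p : ℕ → ℝ), Admissible d → (∀ n, 0 ≤ p n ∧ p n ≤ 1) →
    p =o[atTop] (fun n => L n (d n)) →
    ∀ μ : ∀ n : ℕ, Measure (SimpleGraph (Fin n)), (∀ n, IsDepRandomGraph n (p n) (d n) (μ n)) →
      ASLacks P μ
  upper : ∀ (d : ℕ → ℕ) (p : ℕ → ℝ), Admissible d → (∀ n, 0 ≤ p n ∧ p n ≤ 1) →
    (fun n => U n (d n)) =o[atTop] p →
    ∀ μ : ∀ n : ℕ, Measure (SimpleGraph (Fin n)), (∀ n, IsDepRandomGraph n (p n) (d n) (μ n)) →
      ASHas P μ
  middle : ∀ (d : ℕ → ℕ) (p : ℕ → ℝ), Admissible d → (∀ n, 0 ≤ p n ∧ p n ≤ 1) →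
    (fun n => L n (d n)) =o[atTop] p → p =o[atTop] (fun n => U n (d n)) →
    (∃ μ : ∀ n : ℕ, Measure (SimpleGraph (Fin n)),
      (∀ n, IsDepRandomGraph n (p n) (d n) (μ n)) ∧ ASHas P μ) ∧
    (∃ μ : ∀ n : ℕ, Measure (SimpleGraph (Fin n)),
      (∀ n, IsDepRandomGraph n (p n) (d n) (μ n)) ∧ ASLacks P μ)

end Pool.Agent.H96Dep
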