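import Pool.Agent.H96Dep.Model

namespace Pool.Agent.H96Dep

open MeasureTheory ProbabilityTheory Filter Asymptotics

/-- `G` contains two edges sharing a vertex. -/
def Cherry {n : ℕ} (G : SimpleGraph (Fin n)) : Prop := ∃ u v w, v ≠ w ∧ G.Adj u v ∧ G.Adj u w

/-- the property: two edges share a vertex, or there are at least `√n` edges -/
def PP (n : ℕ) (G : SimpleGraph (Fin n)) : Prop := Cherry G ∨ n ≤ G.edgeSet.ncard ^ 2

/-- number of edges as a sum of indicators -/
lemma edge_count {n : ℕ} (G : SimpleGraph (Fin n)) :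
    (G.edgeSet.ncard : ℝ) = ∑ e : PotEdge n, ({G | present e G} : Set _).indicator (fun _ => (1 : ℝ)) G := by
  classical
  have h1 : G.edgeSet.ncard = (Finset.univ.filter (fun e : PotEdge n => present e G)).card := by
    rw [← Set.ncard_coe_finset]
    have : G.edgeSet = Subtype.val '' (((Finset.univ.filter (fun e : PotEdge n => present e G)) :
        Finset (PotEdge n)) : Set (PotEdge n)) := by
      ext e
      constructor
      · intro he
        refine ⟨⟨e, SimpleGraph.not_isDiag_of_mem_edgeSet G he⟩, ?_, rfl⟩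
        rw [Finset.mem_coe, Finset.mem_filter]
        exact ⟨Finset.mem_univ _, he⟩
      · rintro ⟨f, hf, rfl⟩
        rw [Finset.mem_coe, Finset.mem_filter] at hf
        exact hf.2
    rw [this, Set.ncard_image_of_injective _ Subtype.val_injective]
  rw [h1, Finset.card_filter]
  push_cast
  refine Finset.sum_congr rfl fun e _ => ?_
  simp [Set.indicator_apply]

lemma card_potEdge_le (n : ℕ) : Fintype.card (PotEdge n) ≤ n ^ 2 := by
  rw [Sym2.card_subtype_not_diag, Fintype.card_fin, Nat.choose_two_right]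
  have : n * (n - 1) / 2 ≤ n * (n - 1) := Nat.div_le_self _ _
  have h2 : n * (n - 1) ≤ n * n := Nat.mul_le_mul_left _ (Nat.sub_le _ _)
  nlinarith

lemma card_potEdge_ge (n : ℕ) (hn : 2 ≤ n) : (n : ℝ) ^ 2 / 4 ≤ Fintype.card (PotEdge n) := by
  rw [Sym2.card_subtype_not_diag, Fintype.card_fin, Nat.cast_choose_two]
  have : (2 : ℝ) ≤ n := by exact_mod_cast hn
  nlinarith

section

variable {n : ℕ} {p : ℝ} {d : ℕ} {μ : Measure (SimpleGraph (Fin n))}

lemma real_edge (h : IsDepRandomGraph n p d μ) (hp : 0 ≤ p) (e : PotEdge n) :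
    μ.real {G | present e G} = p := by
  rw [measureReal_def, h.edge e, ENNReal.toReal_ofReal hp]

lemma real_pair (h : IsDepRandomGraph n p d μ) (hp : 0 ≤ p) {D : SimpleGraph (PotEdge n)}
    (hD : IsDependencyGraph D μ) {e f : PotEdge n} (hne : f ≠ e) (hadj : ¬ D.Adj e f) :
    μ.real ({G | present e G} ∩ {G | present f G}) = p * p := by
  have h1 := hD e
  have h2 := h1.comp (φ := fun x : Prop => x)
    (ψ := fun y : ({f : PotEdge n // f ≠ e ∧ ¬ D.Adj e f}) → Prop => y ⟨f, hne, hadj⟩)
    Measurable.of_discrete Measurable.of_discrete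
  rw [indepFun_iff_measure_inter_preimage_eq_mul] at h2
  have h3 := h2 {True} {True} MeasurableSet.of_discrete MeasurableSet.of_discrete
  have e1 : ((fun x : Prop => x) ∘ fun G => present e G) ⁻¹' {True} = {G | present e G} := by
    ext G; simp
  have e2 : ((fun y : ({f : PotEdge n // f ≠ e ∧ ¬ D.Adj e f}) → Prop => y ⟨f, hne, hadj⟩) ∘
      fun G (f : {f : PotEdge n // f ≠ e ∧ ¬ D.Adj e f}) => present f.1 G) ⁻¹' {True} =
      {G | present f G} := by
    ext G; simp
  rw [e1, e2] at h3
  rw [measureReal_def, h3, ENNReal.toReal_mul, h.edge e, h.edge f, ENNReal.toReal_ofReal hp]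

/-- Estimate A -/
lemma est_A (h : IsDepRandomGraph n p d μ) (hp : 0 ≤ p) (hn : 1 ≤ n) :
    μ.real {G | PP n G} ≤ (n : ℝ) ^ 2 * p := by
  have := h.prob
  have hsub : {G | PP n G} ⊆ ⋃ e : PotEdge n, {G | present e G} := by
    intro G hG
    rw [Set.mem_iUnion]
    rcases hG with ⟨u, v, w, _, huv, _⟩ | hG
    · exact ⟨⟨s(u, v), by rw [Sym2.mk_isDiag_iff]; exact huv.ne⟩, huv⟩
    · have hpos : G.edgeSet.ncard ≠ 0 := by
        intro h0; rw [h0] at hG; omega
      obtain ⟨e, he⟩ := Set.nonempty_of_ncard_ne_zero hpos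
      exact ⟨⟨e, SimpleGraph.not_isDiag_of_mem_edgeSet G he⟩, he⟩
  calc μ.real {G | PP n G} ≤ μ.real (⋃ e : PotEdge n, {G | present e G}) := measureReal_mono hsub
    _ ≤ ∑ e : PotEdge n, μ.real {G | present e G} := measureReal_iUnion_fintype_le _
    _ = Fintype.card (PotEdge n) * p := by
        rw [Finset.sum_congr rfl (fun e _ => real_edge h hp e)]; simp
    _ ≤ (n : ℝ) ^ 2 * p := by
        refine mul_le_mul_of_nonneg_right ?_ hp
        exact_mod_cast card_potEdge_le n

lemma integrable_ind (h : IsDepRandomGraph n p d μ) (S : Set (SimpleGraph (Fin n))) :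
    Integrable (S.indicator (fun _ => (1 : ℝ))) μ := by
  have := h.prob
  exact (integrable_const _).indicator (MeasurableSpace.measurableSet_top)

lemma integral_count (h : IsDepRandomGraph n p d μ) (hp : 0 ≤ p) :
    ∫ G, (G.edgeSet.ncard : ℝ) ∂μ = Fintype.card (PotEdge n) * p := by
  have := h.prob
  simp_rw [edge_count]
  rw [integral_finsetSum _ (fun e _ => integrable_ind h _)]
  rw [Finset.sum_congr rfl (g := fun _ => p)]
  · simp
  · intro e _
    rw [integral_indicator_const _ MeasurableSpace.measurableSet_top, real_edge h hp e]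
    simp

lemma integrable_count (h : IsDepRandomGraph n p d μ) :
    Integrable (fun G : SimpleGraph (Fin n) => (G.edgeSet.ncard : ℝ)) μ := by
  simp_rw [edge_count]
  exact integrable_finsetSum _ (fun e _ => integrable_ind h _)

/-- Markov bound for the number of edges -/
lemma est_edges (h : IsDepRandomGraph n p d μ) (hp : 0 ≤ p) (hn : 1 ≤ n) :
    μ.real {G | n ≤ G.edgeSet.ncard ^ 2} ≤ (n : ℝ) ^ 2 * p / Real.sqrt n := by
  have := h.prob
  have hs : 0 < Real.sqrt n := Real.sqrt_pos.mpr (by exact_mod_cast hn)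
  have h1 := mul_meas_ge_le_integral_of_nonneg (μ := μ)
    (f := fun G : SimpleGraph (Fin n) => (G.edgeSet.ncard : ℝ))
    (Eventually.of_forall fun G => Nat.cast_nonneg _) (integrable_count h) (Real.sqrt n)
  rw [integral_count h hp] at h1
  have h2 : {G : SimpleGraph (Fin n) | n ≤ G.edgeSet.ncard ^ 2} ⊆
      {G | Real.sqrt n ≤ (G.edgeSet.ncard : ℝ)} := by
    intro G hG
    have hG' : (n : ℝ) ≤ (G.edgeSet.ncard : ℝ) ^ 2 := by exact_mod_cast hG
    exact Real.sqrt_le_left (Nat.cast_nonneg _) |>.mpr hG' 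
  rw [le_div_iff₀ hs, mul_comm]
  calc Real.sqrt n * μ.real {G | n ≤ G.edgeSet.ncard ^ 2}
      ≤ Real.sqrt n * μ.real {G | Real.sqrt n ≤ (G.edgeSet.ncard : ℝ)} :=
        mul_le_mul_of_nonneg_left (measureReal_mono h2) hs.le
    _ ≤ Fintype.card (PotEdge n) * p := h1
    _ ≤ (n : ℝ) ^ 2 * p := by
        refine mul_le_mul_of_nonneg_right ?_ hp
        exact_mod_cast card_potEdge_le n

/-- Estimate for cherries when `d = 0` -/
lemma est_cherry (h : IsDepRandomGraph n p 0 μ) (hp : 0 ≤ p) :
    μ.real {G | Cherry G} ≤ (n : ℝ) ^ 3 * p ^ 2 := by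
  classical
  have := h.prob
  obtain ⟨D, hdeg, hD⟩ := h.dep
  have hno : ∀ e f, ¬ D.Adj e f := by
    intro e f hef
    have h0 : (D.neighborSet e).ncard = 0 := Nat.le_zero.mp (hdeg e)
    rw [Set.ncard_eq_zero (Set.toFinite _)] at h0
    have : f ∈ D.neighborSet e := hef
    rw [h0] at this
    exact this
  have hsub : {G : SimpleGraph (Fin n) | Cherry G} ⊆ ⋃ t : Fin n × Fin n × Fin n,
      {G | t.2.1 ≠ t.2.2 ∧ G.Adj t.1 t.2.1 ∧ G.Adj t.1 t.2.2} := by
    rintro G ⟨u, v, w, h1, h2, h3⟩
    rw [Set.mem_iUnion]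
    exact ⟨(u, v, w), h1, h2, h3⟩
  have hpt : ∀ t : Fin n × Fin n × Fin n,
      μ.real {G | t.2.1 ≠ t.2.2 ∧ G.Adj t.1 t.2.1 ∧ G.Adj t.1 t.2.2} ≤ p ^ 2 := by
    rintro ⟨u, v, w⟩
    by_cases hc : v ≠ w ∧ u ≠ v ∧ u ≠ w
    · obtain ⟨hvw, huv, huw⟩ := hc
      set e : PotEdge n := ⟨s(u, v), by rw [Sym2.mk_isDiag_iff]; exact huv⟩ with he
      set f : PotEdge n := ⟨s(u, w), by rw [Sym2.mk_isDiag_iff]; exact huw⟩ with hf
      have hne : f ≠ e := by
        intro hfe
        have h5 : s(u, w) = s(u, v) := congrArg Subtype.val hfe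
        rw [Sym2.eq_iff] at h5
        rcases h5 with ⟨_, h6⟩ | ⟨h6, _⟩
        · exact hvw h6.symm
        · exact huv h6
      have h4 := real_pair h hp hD hne (hno e f)
      rw [sq, ← h4]
      refine measureReal_mono ?_
      rintro G ⟨_, h6, h7⟩
      exact ⟨h6, h7⟩
    · have : {G : SimpleGraph (Fin n) | v ≠ w ∧ G.Adj u v ∧ G.Adj u w} = ∅ := by
        ext G
        simp only [Set.mem_ofPred_eq, Set.mem_empty_iff_false, iff_false]
        rintro ⟨h1, h2, h3⟩
        exact hc ⟨h1, h2.ne, h3.ne⟩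
      simp only [this]
      simp only [measureReal_empty]
      positivity
  calc μ.real {G | Cherry G} ≤ μ.real (⋃ t : Fin n × Fin n × Fin n,
      {G | t.2.1 ≠ t.2.2 ∧ G.Adj t.1 t.2.1 ∧ G.Adj t.1 t.2.2}) := measureReal_mono hsub
    _ ≤ ∑ t : Fin n × Fin n × Fin n,
        μ.real {G | t.2.1 ≠ t.2.2 ∧ G.Adj t.1 t.2.1 ∧ G.Adj t.1 t.2.2} :=
        measureReal_iUnion_fintype_le _
    _ ≤ ∑ _t : Fin n × Fin n × Fin n, p ^ 2 := Finset.sum_le_sum fun t _ => hpt t
    _ = (n : ℝ) ^ 3 * p ^ 2 := by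
        rw [Finset.sum_const, Finset.card_univ, Fintype.card_prod, Fintype.card_prod,
          Fintype.card_fin, nsmul_eq_mul]
        push_cast
        ring

/-- Estimate B -/
lemma est_B (h : IsDepRandomGraph n p 0 μ) (hp : 0 ≤ p) (hn : 1 ≤ n) :
    μ.real {G | PP n G} ≤ (n : ℝ) ^ 3 * p ^ 2 + (n : ℝ) ^ 2 * p / Real.sqrt n := by
  have := h.prob
  have : {G | PP n G} = {G | Cherry G} ∪ {G : SimpleGraph (Fin n) | n ≤ G.edgeSet.ncard ^ 2} := by
    ext G; simp [PP]
  rw [this]
  exact (measureReal_union_le _ _).trans (add_le_add (est_cherry h hp) (est_edges h hp hn))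

/-- variance bound -/
lemma est_var (h : IsDepRandomGraph n p d μ) (hp : 0 ≤ p) :
    ∫ G, ((G.edgeSet.ncard : ℝ) - Fintype.card (PotEdge n) * p) ^ 2 ∂μ ≤
      Fintype.card (PotEdge n) * ((d + 1) * p) := by
  classical
  have := h.prob
  obtain ⟨D, hdeg, hD⟩ := h.dep
  set ind : PotEdge n → SimpleGraph (Fin n) → ℝ := fun e =>
    ({G | present e G} : Set _).indicator (fun _ => (1 : ℝ)) with hind
  have hexp : ∀ G : SimpleGraph (Fin n),
      ((G.edgeSet.ncard : ℝ) - Fintype.card (PotEdge n) * p) ^ 2 =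
      ∑ e : PotEdge n, ∑ f : PotEdge n, (ind e G - p) * (ind f G - p) := by
    intro G
    rw [← Finset.sum_mul_sum, ← sq]
    congr 1
    rw [edge_count, Finset.sum_sub_distrib]
    simp [hind]
  simp_rw [hexp]
  have hint : ∀ e : PotEdge n, Integrable (ind e) μ := fun e => integrable_ind h _
  have hprod : ∀ e f : PotEdge n, (fun G => ind e G * ind f G) =
      (({G | present e G} ∩ {G | present f G}) : Set _).indicator (fun _ => (1 : ℝ)) := by
    intro e f
    funext G
    simp only [hind, Set.indicator_apply, Set.mem_inter_iff]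
    by_cases h1 : G ∈ {G | present e G} <;> by_cases h2 : G ∈ {G | present f G} <;> simp [h1, h2]
  have hint2 : ∀ e f : PotEdge n, Integrable (fun G => ind e G * ind f G) μ := by
    intro e f; rw [hprod]; exact integrable_ind h _
  have hterm : ∀ e f : PotEdge n, (fun G => (ind e G - p) * (ind f G - p)) =
      fun G => (ind e G * ind f G - p * ind e G) - (p * ind f G - p * p) := by
    intro e f; funext G; ring
  have hI : ∀ e : PotEdge n, ∫ G, ind e G ∂μ = p := by
    intro e
    simp only [hind]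
    rw [integral_indicator_const _ MeasurableSpace.measurableSet_top, real_edge h hp e]
    simp
  have hcov : ∀ e f : PotEdge n, ∫ G, (ind e G - p) * (ind f G - p) ∂μ =
      μ.real ({G | present e G} ∩ {G | present f G}) - p * p := by
    intro e f
    rw [hterm, integral_sub, integral_sub, integral_sub, integral_const_mul, integral_const_mul,
      hI, hI, hprod, integral_indicator_const _ MeasurableSpace.measurableSet_top]
    · simp
    · exact (hint f).const_mul _
    · exact integrable_const _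
    · exact hint2 e f
    · exact (hint e).const_mul _
    · exact (hint2 e f).sub ((hint e).const_mul _)
    · exact ((hint f).const_mul _).sub (integrable_const _)
  have hint3 : ∀ e f : PotEdge n, Integrable (fun G => (ind e G - p) * (ind f G - p)) μ := by
    intro e f
    rw [hterm]
    exact ((hint2 e f).sub ((hint e).const_mul _)).sub
      (((hint f).const_mul _).sub (integrable_const _))
  rw [integral_finsetSum _ (fun e _ => integrable_finsetSum _ (fun f _ => hint3 e f))]
  have hrow : ∀ e : PotEdge n, ∫ G, ∑ f : PotEdge n, (ind e G - p) * (ind f G - p) ∂μ ≤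
      (d + 1) * p := by
    intro e
    rw [integral_finsetSum _ (fun f _ => hint3 e f)]
    have hb : ∀ f : PotEdge n, ∫ G, (ind e G - p) * (ind f G - p) ∂μ ≤
        if f ∈ insert e (D.neighborSet e).toFinset then p else 0 := by
      intro f
      rw [hcov]
      split_ifs with hf
      · have h1 : μ.real ({G | present e G} ∩ {G | present f G}) ≤ p := by
          rw [← real_edge h hp e]
          exact measureReal_mono Set.inter_subset_left
        nlinarith
      · rw [Finset.mem_insert, not_or, Set.mem_toFinset] at hf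
        rw [real_pair h hp hD hf.1 hf.2]
        simp
    refine (Finset.sum_le_sum fun f _ => hb f).trans ?_
    rw [Finset.sum_ite_mem, Finset.univ_inter, Finset.sum_const, nsmul_eq_mul]
    refine mul_le_mul_of_nonneg_right ?_ hp
    have hc : (insert e (D.neighborSet e).toFinset).card ≤ d + 1 := by
      refine (Finset.card_insert_le _ _).trans ?_
      have := hdeg e
      rw [Set.ncard_eq_toFinset_card'] at this
      omega
    exact_mod_cast hc
  calc ∑ e : PotEdge n, ∫ G, ∑ f : PotEdge n, (ind e G - p) * (ind f G - p) ∂μ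
      ≤ ∑ _e : PotEdge n, (d + 1 : ℝ) * p := Finset.sum_le_sum fun e _ => hrow e
    _ = _ := by simp

/-- Estimate C -/
lemma est_C (h : IsDepRandomGraph n p d μ) (hp : 0 < p) (hn : 2 ≤ n)
    (hs : 8 * Real.sqrt n ≤ (n : ℝ) ^ 2 * p) :
    μ.real {G | ¬ PP n G} ≤ 16 * (d + 1) / ((n : ℝ) ^ 2 * p) := by
  have := h.prob
  set m : ℝ := (Fintype.card (PotEdge n) : ℝ) with hm
  have hmn : (n : ℝ) ^ 2 / 4 ≤ m := card_potEdge_ge n hn
  have hn' : (2 : ℝ) ≤ n := by exact_mod_cast hn
  have hmp : 0 < m := by nlinarith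
  have hsub : {G : SimpleGraph (Fin n) | ¬ PP n G} ⊆
      {G | (m * p / 2) ^ 2 ≤ ((G.edgeSet.ncard : ℝ) - m * p) ^ 2} := by
    intro G hG
    have h1 : ¬ (n ≤ G.edgeSet.ncard ^ 2) := fun h => hG (Or.inr h)
    have h2 : (G.edgeSet.ncard : ℝ) ^ 2 < n := by exact_mod_cast not_le.mp h1
    have h3 : (G.edgeSet.ncard : ℝ) < Real.sqrt n := by
      rw [Real.lt_sqrt (Nat.cast_nonneg _)]; exact h2
    have h4 : Real.sqrt n ≤ m * p / 2 := by nlinarith
    have h5 : m * p / 2 ≤ m * p - G.edgeSet.ncard := by linarith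
    have h6 : 0 ≤ m * p / 2 := by positivity
    show (m * p / 2) ^ 2 ≤ ((G.edgeSet.ncard : ℝ) - m * p) ^ 2
    nlinarith
  have hvar := est_var h hp.le
  have hintc : Integrable (fun G : SimpleGraph (Fin n) =>
      ((G.edgeSet.ncard : ℝ) - m * p) ^ 2) μ := by
    apply Integrable.of_finite
  have h1 := mul_meas_ge_le_integral_of_nonneg (μ := μ)
    (f := fun G : SimpleGraph (Fin n) => ((G.edgeSet.ncard : ℝ) - m * p) ^ 2)
    (Eventually.of_forall fun G => sq_nonneg _) hintc ((m * p / 2) ^ 2)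
  have h2 := h1.trans hvar
  have hpos : 0 < (m * p / 2) ^ 2 := by positivity
  have h3 : μ.real {G | ¬ PP n G} ≤ m * ((d + 1) * p) / (m * p / 2) ^ 2 := by
    rw [le_div_iff₀ hpos, mul_comm]
    exact (mul_le_mul_of_nonneg_left (measureReal_mono hsub) hpos.le).trans h2
  refine h3.trans ?_
  rw [div_le_div_iff₀ hpos (by positivity)]
  have h7 : (n : ℝ) ^ 2 * p ≤ 4 * (m * p) := by nlinarith
  calc m * ((d + 1) * p) * ((n : ℝ) ^ 2 * p) ≤ m * ((d + 1) * p) * (4 * (m * p)) :=
        mul_le_mul_of_nonneg_left h7 (by positivity)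
    _ = 16 * (d + 1) * (m * p / 2) ^ 2 := by ring

end

end Pool.Agent.H96Dep
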