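import Pool.Agent.H96Dep.Estimates

namespace Pool.Agent.H96Dep

open MeasureTheory ProbabilityTheory Filter Asymptotics

/-- the index set used to find a cherry -/
def SS (n : ℕ) : Finset (Fin n × Fin n) :=
  (Finset.univ : Finset (Fin (n / 4) × Fin (n / 2))).image (fun t =>
    (⟨n - 1 - t.2.val, by have := t.2.isLt; omega⟩, ⟨t.1.val, by have := t.1.isLt; omega⟩))

lemma card_SS (n : ℕ) : (SS n).card = (n / 4) * (n / 2) := by
  unfold SS
  rw [Finset.card_image_of_injective]
  · simp
  · rintro ⟨a, b⟩ ⟨a', b'⟩ h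
    simp only [Prod.mk.injEq, Fin.mk.injEq] at h
    obtain ⟨h1, h2⟩ := h
    have := b.isLt
    have := b'.isLt
    refine Prod.ext (Fin.ext h2) (Fin.ext ?_)
    show b.val = b'.val
    omega

lemma card_SS_ge (n : ℕ) (hn : 4 ≤ n) : (n : ℝ) ^ 2 / 64 ≤ (SS n).card := by
  rw [card_SS]
  push_cast
  have h1 : (n : ℝ) / 16 ≤ ((n / 4 : ℕ) : ℝ) := by
    have : n ≤ 16 * (n / 4) := by omega
    have : (n : ℝ) ≤ 16 * ((n / 4 : ℕ) : ℝ) := by exact_mod_cast this
    linarith
  have h2 : (n : ℝ) / 4 ≤ ((n / 2 : ℕ) : ℝ) := by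
    have : n ≤ 4 * (n / 2) := by omega
    have : (n : ℝ) ≤ 4 * ((n / 2 : ℕ) : ℝ) := by exact_mod_cast this
    linarith
  have h3 : (0 : ℝ) ≤ (n : ℝ) / 16 := by positivity
  have h4 : (0 : ℝ) ≤ (n : ℝ) / 4 := by positivity
  calc (n : ℝ) ^ 2 / 64 = (n : ℝ) / 16 * ((n : ℝ) / 4) := by ring
    _ ≤ ((n / 4 : ℕ) : ℝ) * ((n / 2 : ℕ) : ℝ) := mul_le_mul h1 h2 h4 (by positivity)

/-- if no cherry then all the bits of `SS n` vanish -/
lemma no_cherry_sub (n : ℕ) :
    graphOf 2 ⁻¹' {G : SimpleGraph (Fin n) | ¬ Cherry G} ⊆ {ω | ∀ i ∈ SS n, ω i = false} := by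
  intro ω hω i hi
  by_contra hcon
  have htrue : ω i = true := by
    cases h : ω i with
    | true => rfl
    | false => exact absurd h hcon
  apply hω
  unfold SS at hi
  rw [Finset.mem_image] at hi
  obtain ⟨⟨a, b⟩, _, rfl⟩ := hi
  have ha := a.isLt
  have hb := b.isLt
  set v : Fin n := ⟨n - 1 - b.val, by omega⟩ with hv
  set x : Fin n := ⟨2 * a.val, by omega⟩ with hx
  set y : Fin n := ⟨2 * a.val + 1, by omega⟩ with hy
  have hxv : x < v := by rw [Fin.lt_def]; simp only [hv, hx]; omega
  have hyv : y < v := by rw [Fin.lt_def]; simp only [hv, hy]; omega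
  have hxi : idx 2 v x = (v, ⟨a.val, by omega⟩) := by
    unfold idx
    rw [max_eq_left hxv.le]
    simp only [min_eq_right hxv.le]
    congr 1
    apply Fin.ext
    simp only [hx]
    omega
  have hyi : idx 2 v y = (v, ⟨a.val, by omega⟩) := by
    unfold idx
    rw [max_eq_left hyv.le]
    simp only [min_eq_right hyv.le]
    congr 1
    apply Fin.ext
    simp only [hy]
    omega
  refine ⟨v, x, y, ?_, ⟨hxv.ne', ?_⟩, ⟨hyv.ne', ?_⟩⟩
  · intro hxy
    have := congrArg Fin.val hxy
    simp only [hx, hy] at this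
    omega
  · rw [hxi]; exact htrue
  · rw [hyi]; exact htrue

lemma est_has (n : ℕ) (hn : 4 ≤ n) (p : unitInterval) (hp : 0 < (p : ℝ)) :
    (gm n p 2).real {G | ¬ PP n G} ≤ 64 / ((n : ℝ) ^ 2 * p) := by
  have h1 : (gm n p 2).real {G | ¬ PP n G} ≤ (1 - (p : ℝ)) ^ (SS n).card := by
    rw [← bits_false, measureReal_def, measureReal_def, gm_apply]
    refine ENNReal.toReal_mono (measure_ne_top _ _) (measure_mono ?_)
    refine Set.Subset.trans ?_ (no_cherry_sub n)
    intro ω hω hch
    exact hω (Or.inl hch)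
  refine h1.trans ?_
  have hM := card_SS_ge n hn
  have hn' : (4 : ℝ) ≤ n := by exact_mod_cast hn
  have hMpos : 0 < ((SS n).card : ℝ) := by nlinarith
  have h2 : (1 - (p : ℝ)) ^ (SS n).card ≤ Real.exp (-(p * (SS n).card)) := by
    have := Real.one_sub_le_exp_neg (p : ℝ)
    calc (1 - (p : ℝ)) ^ (SS n).card ≤ (Real.exp (-(p : ℝ))) ^ (SS n).card :=
          pow_le_pow_left₀ (by linarith [p.2.2]) this _
      _ = Real.exp (-(p * (SS n).card)) := by rw [← Real.exp_nat_mul]; congr 1; ring
  refine h2.trans ?_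
  rw [Real.exp_neg]
  have h3 : (n : ℝ) ^ 2 * p / 64 ≤ Real.exp (p * (SS n).card) := by
    have := Real.add_one_le_exp ((p : ℝ) * (SS n).card)
    nlinarith
  calc (Real.exp (p * (SS n).card))⁻¹ ≤ ((n : ℝ) ^ 2 * p / 64)⁻¹ :=
        inv_anti₀ (by positivity) h3
    _ = 64 / ((n : ℝ) ^ 2 * p) := by rw [inv_div]

lemma est_block (n : ℕ) (hn : 1 ≤ n) (p : unitInterval) (D : ℕ) (hD : 0 < D) :
    (gm n p D).real {G | PP n G} ≤ n * (n / D + 1) * p := by
  classical
  set T : Finset (Fin n × Fin n) :=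
    Finset.univ ×ˢ (Finset.univ.filter (fun j : Fin n => j.val * D < n)) with hT
  have hcard : (T.card : ℝ) ≤ n * (n / D + 1) := by
    rw [hT, Finset.card_product]
    push_cast
    have h1 : ((Finset.univ.filter (fun j : Fin n => j.val * D < n)).card) ≤ n / D + 1 := by
      have : (Finset.univ.filter (fun j : Fin n => j.val * D < n)).image Fin.val ⊆
          Finset.range (n / D + 1) := by
        intro j hj
        rw [Finset.mem_image] at hj
        obtain ⟨i, hi, rfl⟩ := hj
        rw [Finset.mem_filter] at hi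
        rw [Finset.mem_range, Nat.lt_succ_iff, Nat.le_div_iff_mul_le hD]
        exact hi.2.le
      have h2 := Finset.card_le_card this
      rw [Finset.card_image_of_injective _ Fin.val_injective, Finset.card_range] at h2
      exact h2
    have h2 : ((Finset.univ.filter (fun j : Fin n => j.val * D < n)).card : ℝ) ≤ n / D + 1 := by
      have h3 : (((n / D : ℕ) : ℝ)) ≤ (n : ℝ) / D := Nat.cast_div_le
      have h4 : ((Finset.univ.filter (fun j : Fin n => j.val * D < n)).card : ℝ) ≤
          ((n / D : ℕ) : ℝ) + 1 := by exact_mod_cast h1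
      linarith
    rw [Finset.card_univ, Fintype.card_fin]
    exact mul_le_mul_of_nonneg_left h2 (Nat.cast_nonneg _)
  have hsub : graphOf D ⁻¹' {G : SimpleGraph (Fin n) | PP n G} ⊆ ⋃ i ∈ T, {ω : Bits n | ω i = true} := by
    intro ω hω
    have hex : ∃ u v, (graphOf D ω).Adj u v := by
      rcases hω with ⟨u, v, w, _, huv, _⟩ | hω
      · exact ⟨u, v, huv⟩
      · have hpos : (graphOf D ω).edgeSet.ncard ≠ 0 := by
          intro h0; rw [h0] at hω; omega
        obtain ⟨e, he⟩ := Set.nonempty_of_ncard_ne_zero hpos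
        induction e using Sym2.ind with
        | _ u v => exact ⟨u, v, he⟩
    obtain ⟨u, v, _, hbit⟩ := hex
    rw [Set.mem_iUnion₂]
    refine ⟨idx D u v, ?_, hbit⟩
    rw [hT, Finset.mem_product]
    refine ⟨Finset.mem_univ _, ?_⟩
    rw [Finset.mem_filter]
    refine ⟨Finset.mem_univ _, ?_⟩
    show (min u v).val / D * D < n
    exact lt_of_le_of_lt (Nat.div_mul_le_self _ _) (min u v).isLt
  have h1 : (gm n p D).real {G | PP n G} ≤ (bitsLaw n p).real (⋃ i ∈ T, {ω : Bits n | ω i = true}) := by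
    rw [measureReal_def, measureReal_def, gm_apply]
    exact ENNReal.toReal_mono (measure_ne_top _ _) (measure_mono hsub)
  refine h1.trans ?_
  calc (bitsLaw n p).real (⋃ i ∈ T, {ω : Bits n | ω i = true})
      ≤ ∑ i ∈ T, (bitsLaw n p).real {ω : Bits n | ω i = true} := measureReal_biUnion_finset_le _ _
    _ = T.card * (p : ℝ) := by
        rw [Finset.sum_congr rfl (g := fun _ => (p : ℝ))]
        · simp
        · intro i _
          rw [measureReal_def, bit_true, ENNReal.toReal_ofReal p.2.1]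
    _ ≤ _ := mul_le_mul_of_nonneg_right hcard p.2.1

/-- lower threshold -/
noncomputable def LL (n d : ℕ) : ℝ := (if d = 0 then Real.sqrt n else 1) / (n : ℝ) ^ 2

/-- upper threshold -/
noncomputable def UU (n d : ℕ) : ℝ := max (Real.sqrt n) (d + 1) / (n : ℝ) ^ 2

lemma tendsto_zero_of {X : ℕ → ℝ} (h0 : ∀ n, 0 ≤ X n) (K : ℝ)
    (h : ∀ c : ℝ, 0 < c → c ≤ 1 / 8 → ∀ᶠ n in atTop, X n ≤ K * c) : Tendsto X atTop (nhds 0) := by
  rw [Metric.tendsto_atTop']
  intro ε hε
  have hK : 0 < |K| + 1 := by positivity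
  set c := min (1 / 8) (ε / (2 * (|K| + 1))) with hc
  have hc0 : 0 < c := lt_min (by norm_num) (by positivity)
  obtain ⟨N, hN⟩ := eventually_atTop.mp (h c hc0 (min_le_left _ _))
  refine ⟨N, fun n hn => ?_⟩
  rw [Real.dist_eq, sub_zero, abs_of_nonneg (h0 n)]
  have h1 := hN n hn.le
  have h2 : c ≤ ε / (2 * (|K| + 1)) := min_le_right _ _
  have h3 : K * c ≤ (|K| + 1) * c := by
    have := le_abs_self K
    nlinarith
  have h4 : (|K| + 1) * c ≤ ε / 2 := by
    calc (|K| + 1) * c ≤ (|K| + 1) * (ε / (2 * (|K| + 1))) := by gcongr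
      _ = ε / 2 := by field_simp
  linarith

lemma asLacks_of {μ : ∀ n : ℕ, Measure (SimpleGraph (Fin n))} (hμ : ∀ n, IsProbabilityMeasure (μ n))
    (h : Tendsto (fun n => (μ n).real {G | PP n G}) atTop (nhds 0)) : ASLacks PP μ := by
  unfold ASLacks
  have h1 : ∀ n, μ n {G | ¬ PP n G} = ENNReal.ofReal (1 - (μ n).real {G | PP n G}) := by
    intro n
    have := hμ n
    have h2 : (μ n).real ({G | PP n G}ᶜ) = 1 - (μ n).real {G | PP n G} :=
      probReal_compl_eq_one_sub (MeasurableSpace.measurableSet_top)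
    rw [← h2, ofReal_measureReal]
    rfl
  simp_rw [h1]
  have h3 : Tendsto (fun n => 1 - (μ n).real {G | PP n G}) atTop (nhds (1 - 0)) :=
    tendsto_const_nhds.sub h
  have h4 := ENNReal.tendsto_ofReal h3
  simpa using h4

lemma asHas_of {μ : ∀ n : ℕ, Measure (SimpleGraph (Fin n))} (hμ : ∀ n, IsProbabilityMeasure (μ n))
    (h : Tendsto (fun n => (μ n).real {G | ¬ PP n G}) atTop (nhds 0)) : ASHas PP μ := by
  unfold ASHas
  have h1 : ∀ n, μ n {G | PP n G} = ENNReal.ofReal (1 - (μ n).real {G | ¬ PP n G}) := by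
    intro n
    have := hμ n
    have h2 : (μ n).real ({G | ¬ PP n G}ᶜ) = 1 - (μ n).real {G | ¬ PP n G} :=
      probReal_compl_eq_one_sub (MeasurableSpace.measurableSet_top)
    rw [← h2, ofReal_measureReal]
    congr 1
    ext G; simp
  simp_rw [h1]
  have h3 : Tendsto (fun n => 1 - (μ n).real {G | ¬ PP n G}) atTop (nhds (1 - 0)) :=
    tendsto_const_nhds.sub h
  have h4 := ENNReal.tendsto_ofReal h3
  simpa using h4

lemma PP_monotone : IsMonotoneProperty PP := by
  constructor
  · intro n G H hGH hG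
    rcases hG with ⟨u, v, w, h1, h2, h3⟩ | hG
    · exact Or.inl ⟨u, v, w, h1, hGH h2, hGH h3⟩
    · right
      refine hG.trans (Nat.pow_le_pow_left ?_ 2)
      exact Set.ncard_le_ncard (SimpleGraph.edgeSet_mono hGH) (Set.toFinite _)
  · rintro n G H ⟨φ⟩ hG
    rcases hG with ⟨u, v, w, h1, h2, h3⟩ | hG
    · exact Or.inl ⟨φ u, φ v, φ w, fun h => h1 (φ.injective h), φ.map_adj_iff.mpr h2,
        φ.map_adj_iff.mpr h3⟩
    · right
      have h1 : G.edgeSet.ncard = H.edgeSet.ncard := by
        rw [← Nat.card_coe_set_eq, ← Nat.card_coe_set_eq]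
        exact Nat.card_congr φ.mapEdgeSet
      rw [← h1]; exact hG

/-- the basic estimate at small `p` -/
lemma small_bound {n : ℕ} (hn : 1 ≤ n) {p c : ℝ} (hp : 0 ≤ p) (hc : 0 < c) (hc8 : c ≤ 1 / 8)
    (hpc : p ≤ c * (Real.sqrt n / (n : ℝ) ^ 2)) :
    (n : ℝ) ^ 3 * p ^ 2 + (n : ℝ) ^ 2 * p / Real.sqrt n ≤ 2 * c := by
  have hn' : (1 : ℝ) ≤ n := by exact_mod_cast hn
  have hn0 : (0 : ℝ) < n := by linarith
  have hs : 0 < Real.sqrt n := Real.sqrt_pos.mpr hn0
  have hs2 : Real.sqrt n ^ 2 = n := Real.sq_sqrt hn0.le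
  have h1 : (n : ℝ) ^ 3 * p ^ 2 ≤ c ^ 2 := by
    calc (n : ℝ) ^ 3 * p ^ 2 ≤ (n : ℝ) ^ 3 * (c * (Real.sqrt n / (n : ℝ) ^ 2)) ^ 2 := by gcongr
      _ = c ^ 2 * (Real.sqrt n ^ 2) / n := by field_simp
      _ = c ^ 2 := by rw [hs2]; field_simp
  have h2 : (n : ℝ) ^ 2 * p / Real.sqrt n ≤ c := by
    rw [div_le_iff₀ hs]
    calc (n : ℝ) ^ 2 * p ≤ (n : ℝ) ^ 2 * (c * (Real.sqrt n / (n : ℝ) ^ 2)) := by gcongr
      _ = c * Real.sqrt n := by field_simp
  nlinarith

lemma isLittleO_bound {f g : ℕ → ℝ} (h : f =o[atTop] g) (hf : ∀ n, 0 ≤ f n) (hg : ∀ n, 0 ≤ g n)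
    {c : ℝ} (hc : 0 < c) : ∀ᶠ n in atTop, f n ≤ c * g n := by
  filter_upwards [h.bound hc] with n hn
  rwa [Real.norm_of_nonneg (hf n), Real.norm_of_nonneg (hg n)] at hn

lemma LL_nonneg (n d : ℕ) : 0 ≤ LL n d := by unfold LL; split_ifs <;> positivity

lemma UU_nonneg (n d : ℕ) : 0 ≤ UU n d := by
  unfold UU
  exact div_nonneg (le_max_of_le_left (Real.sqrt_nonneg _)) (by positivity)

lemma one_le_sqrt {n : ℕ} (hn : 1 ≤ n) : 1 ≤ Real.sqrt n := by
  rw [Real.one_le_sqrt]; exact_mod_cast hn

lemma admissible_eventually {d : ℕ → ℕ} (hd : Admissible d) : ∀ᶠ n in atTop, d n + 1 ≤ n := by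
  obtain ⟨C, hC⟩ := hd.bound
  have hlog : Tendsto (fun n : ℕ => Real.log (n : ℝ)) atTop atTop :=
    Real.tendsto_log_atTop.comp tendsto_natCast_atTop_atTop
  have h2 := hlog.eventually_ge_atTop (2 * |C| + 1)
  filter_upwards [hC, h2, eventually_ge_atTop 2] with n h3 h4 h5
  have hn : (2 : ℝ) ≤ n := by exact_mod_cast h5
  have hlogpos : 0 < Real.log n := Real.log_pos (by linarith)
  rw [Real.norm_of_nonneg (Nat.cast_nonneg _), Real.norm_of_nonneg (by positivity)] at h3
  have h6 : C * ((n : ℝ) / Real.log n) ≤ n / 2 := by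
    have h7 : C ≤ |C| := le_abs_self C
    have h8 : 0 ≤ (n : ℝ) / Real.log n := by positivity
    calc C * ((n : ℝ) / Real.log n) ≤ |C| * ((n : ℝ) / Real.log n) :=
          mul_le_mul_of_nonneg_right h7 h8
      _ = |C| * n / Real.log n := by ring
      _ ≤ n / 2 := by
          rw [div_le_div_iff₀ hlogpos (by norm_num)]
          nlinarith [abs_nonneg C]
  have h9 : (d n : ℝ) ≤ n / 2 := h3.trans h6
  have h10 : (d n : ℝ) + 1 ≤ n := by linarith
  exact_mod_cast h10

theorem threshold_PP : IsThresholdPair PP LL UU := by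
  constructor
  · intro n d hn
    unfold LL
    have hn' : (0 : ℝ) < n := by exact_mod_cast hn
    split_ifs <;> positivity
  · intro n d
    unfold LL UU
    rcases Nat.eq_zero_or_pos n with h | h
    · subst h; simp
    · have hn' : (0 : ℝ) < n := by exact_mod_cast h
      have h1 := one_le_sqrt h
      gcongr
      split_ifs
      · exact le_max_left _ _
      · exact le_max_of_le_left h1
  · -- lower
    intro d p _ hp hpL μ hμ
    refine asLacks_of (fun n => (hμ n).prob) (tendsto_zero_of (fun n => measureReal_nonneg) 2 ?_)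
    intro c hc hc8
    filter_upwards [isLittleO_bound hpL (fun n => (hp n).1) (fun n => LL_nonneg _ _) hc,
      eventually_ge_atTop 1] with n h1 hn
    have hn' : (0 : ℝ) < n := by exact_mod_cast hn
    unfold LL at h1
    split_ifs at h1 with h0
    · have h2 := hμ n
      rw [h0] at h2
      exact (est_B h2 (hp n).1 hn).trans (small_bound hn (hp n).1 hc hc8 h1)
    · refine (est_A (hμ n) (hp n).1 hn).trans ?_
      calc (n : ℝ) ^ 2 * p n ≤ (n : ℝ) ^ 2 * (c * (1 / (n : ℝ) ^ 2)) := by gcongr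
        _ = c := by field_simp
        _ ≤ 2 * c := by linarith
  · -- upper
    intro d p _ hp hpU μ hμ
    refine asHas_of (fun n => (hμ n).prob) (tendsto_zero_of (fun n => measureReal_nonneg) 16 ?_)
    intro c hc hc8
    filter_upwards [isLittleO_bound hpU (fun n => UU_nonneg _ _) (fun n => (hp n).1) hc,
      eventually_ge_atTop 2] with n h1 hn
    have hn' : (0 : ℝ) < n := by positivity
    unfold UU at h1
    rw [div_le_iff₀ (by positivity)] at h1
    have h2 : Real.sqrt n ≤ c * p n * (n : ℝ) ^ 2 := (le_max_left _ _).trans h1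
    have h3 : (d n : ℝ) + 1 ≤ c * p n * (n : ℝ) ^ 2 := (le_max_right _ _).trans h1
    have hs : 1 ≤ Real.sqrt n := one_le_sqrt (by omega)
    have hpn : 0 < (n : ℝ) ^ 2 * p n := by
      by_contra hcon
      have : c * p n * (n : ℝ) ^ 2 = c * ((n : ℝ) ^ 2 * p n) := by ring
      nlinarith
    have hp0 : 0 < p n := by
      by_contra hcon
      have : p n = 0 := le_antisymm (not_lt.mp hcon) (hp n).1
      rw [this] at hpn; simp at hpn
    refine (est_C (hμ n) hp0 hn ?_).trans ?_
    · have : c * p n * (n : ℝ) ^ 2 = c * ((n : ℝ) ^ 2 * p n) := by ring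
      nlinarith
    · rw [div_le_iff₀ hpn]
      have : c * p n * (n : ℝ) ^ 2 = c * ((n : ℝ) ^ 2 * p n) := by ring
      nlinarith
  · -- middle
    intro d p hd hp hL hU
    set q : ℕ → unitInterval := fun n => ⟨p n, hp n⟩ with hq
    have hdpos : ∀ᶠ n in atTop, d n ≠ 0 := by
      filter_upwards [isLittleO_bound hL (fun n => LL_nonneg _ _) (fun n => (hp n).1)
        (by norm_num : (0 : ℝ) < 1 / 2), isLittleO_bound hU (fun n => (hp n).1)
        (fun n => UU_nonneg _ _) (by norm_num : (0 : ℝ) < 1 / 2), eventually_ge_atTop 1]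
        with n h1 h2 hn h0
      have hn' : (0 : ℝ) < n := by exact_mod_cast hn
      have hs := one_le_sqrt hn
      have e1 : LL n (d n) = Real.sqrt n / (n : ℝ) ^ 2 := by unfold LL; rw [if_pos h0]
      have e2 : UU n (d n) = Real.sqrt n / (n : ℝ) ^ 2 := by
        unfold UU; rw [h0]; congr 1
        rw [max_eq_left]; simpa using hs
      rw [e1] at h1
      rw [e2] at h2
      have : 0 < Real.sqrt n / (n : ℝ) ^ 2 := by positivity
      linarith
    constructor
    · refine ⟨fun n => if d n = 0 then gm n (q n) 1 else gm n (q n) 2, fun n => ?_, ?_⟩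
      · by_cases h0 : d n = 0
        · simp only [h0, if_true]
          exact isDep_gm n (q n) (by norm_num) (by norm_num)
        · simp only [h0, if_false]
          exact isDep_gm n (q n) (by norm_num) (by omega)
      · refine asHas_of (fun n => ?_) (tendsto_zero_of (fun n => measureReal_nonneg) 64 ?_)
        · by_cases h0 : d n = 0 <;> simp only [h0, if_true, if_false] <;> infer_instance
        · intro c hc hc8
          filter_upwards [hdpos, isLittleO_bound hL (fun n => LL_nonneg _ _)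
            (fun n => (hp n).1) hc, eventually_ge_atTop 4] with n h0 h1 hn
          have hn' : (0 : ℝ) < n := by positivity
          simp only [h0, if_false]
          unfold LL at h1
          rw [if_neg h0, div_le_iff₀ (by positivity)] at h1
          have hpn : 0 < (n : ℝ) ^ 2 * p n := by
            by_contra hcon
            have : c * p n * (n : ℝ) ^ 2 = c * ((n : ℝ) ^ 2 * p n) := by ring
            nlinarith
          have hp0 : 0 < p n := by
            by_contra hcon
            have : p n = 0 := le_antisymm (not_lt.mp hcon) (hp n).1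
            rw [this] at hpn; simp at hpn
          refine (est_has n hn (q n) hp0).trans ?_
          show 64 / ((n : ℝ) ^ 2 * p n) ≤ 64 * c
          rw [div_le_iff₀ hpn]
          have : c * p n * (n : ℝ) ^ 2 = c * ((n : ℝ) ^ 2 * p n) := by ring
          nlinarith
    · refine ⟨fun n => if (d n : ℝ) + 1 ≤ Real.sqrt n then gm n (q n) 1 else gm n (q n) (d n + 1),
        fun n => ?_, ?_⟩
      · by_cases h0 : (d n : ℝ) + 1 ≤ Real.sqrt n
        · simp only [h0, if_true]
          exact isDep_gm n (q n) (by norm_num) (by omega)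
        · simp only [h0, if_false]
          exact isDep_gm n (q n) (by omega) le_rfl
      · refine asLacks_of (fun n => ?_) (tendsto_zero_of (fun n => measureReal_nonneg) 2 ?_)
        · by_cases h0 : (d n : ℝ) + 1 ≤ Real.sqrt n <;> simp only [h0, if_true, if_false] <;>
            infer_instance
        · intro c hc hc8
          filter_upwards [isLittleO_bound hU (fun n => (hp n).1) (fun n => UU_nonneg _ _) hc,
            eventually_ge_atTop 1, admissible_eventually hd] with n h1 hn hdn
          have hn' : (0 : ℝ) < n := by positivity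
          by_cases h0 : (d n : ℝ) + 1 ≤ Real.sqrt n
          · simp only [h0, if_true]
            have e2 : UU n (d n) = Real.sqrt n / (n : ℝ) ^ 2 := by
              unfold UU; rw [max_eq_left h0]
            rw [e2] at h1
            have h2 : IsDepRandomGraph n (q n : ℝ) 0 (gm n (q n) 1) :=
              isDep_gm n (q n) (by norm_num) (by norm_num)
            exact (est_B h2 (hp n).1 hn).trans (small_bound hn (hp n).1 hc hc8 h1)
          · simp only [h0, if_false]
            have e2 : UU n (d n) = ((d n : ℝ) + 1) / (n : ℝ) ^ 2 := by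
              unfold UU; rw [max_eq_right (not_le.mp h0).le]
            rw [e2] at h1
            refine (est_block n hn (q n) (d n + 1) (by omega)).trans ?_
            show (n : ℝ) * (n / ((d n + 1 : ℕ) : ℝ) + 1) * p n ≤ 2 * c
            push_cast
            have hdn' : (d n : ℝ) + 1 ≤ n := by exact_mod_cast hdn
            have hd0 : (0 : ℝ) < (d n : ℝ) + 1 := by positivity
            calc (n : ℝ) * (n / ((d n : ℝ) + 1) + 1) * p n
                ≤ (n : ℝ) * (n / ((d n : ℝ) + 1) + 1) * (c * (((d n : ℝ) + 1) / (n : ℝ) ^ 2)) := by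
                  gcongr
              _ = c * (1 + ((d n : ℝ) + 1) / n) := by field_simp
              _ ≤ c * (1 + 1) := by
                  gcongr
                  rw [div_le_one hn']; exact hdn'
              _ = 2 * c := by ring

lemma admissible_one : Admissible (fun _ => 1) := by
  unfold Admissible
  refine IsBigO.of_bound 1 ?_
  filter_upwards [eventually_ge_atTop 3] with n hn
  have hn' : (3 : ℝ) ≤ n := by exact_mod_cast hn
  have hlog : 0 < Real.log n := Real.log_pos (by linarith)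
  have h1 : Real.log n ≤ n := (Real.log_le_sub_one_of_pos (by linarith)).trans (by linarith)
  rw [one_mul, Real.norm_of_nonneg (by positivity), Real.norm_of_nonneg (by positivity)]
  rw [Nat.cast_one, le_div_iff₀ hlog, one_mul]
  exact h1

theorem ratio_unbounded (f : ℕ → ℝ) : ¬ ∀ d : ℕ → ℕ, Admissible d →
    (fun n => UU n (d n) / LL n (d n)) =O[atTop] (fun n => f (d n)) := by
  intro h
  have h1 := h (fun _ => 1) admissible_one
  obtain ⟨C, hC⟩ := h1.bound
  have hs : Tendsto (fun n : ℕ => Real.sqrt (n : ℝ)) atTop atTop :=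
    Real.tendsto_sqrt_atTop.comp tendsto_natCast_atTop_atTop
  have h2 := hs.eventually_gt_atTop (C * ‖f 1‖)
  obtain ⟨n, h3, h4, h5⟩ := (hC.and (h2.and (eventually_ge_atTop 1))).exists
  have hn' : (0 : ℝ) < n := by exact_mod_cast h5
  have e1 : UU n 1 / LL n 1 = max (Real.sqrt n) 2 := by
    unfold UU LL
    rw [if_neg (by norm_num)]
    push_cast
    rw [show ((1 : ℝ) + 1) = 2 by norm_num]
    field_simp
  rw [e1, Real.norm_of_nonneg (le_max_of_le_right (by norm_num))] at h3
  have := le_max_left (Real.sqrt n) 2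
  linarith

end Pool.Agent.H96Dep
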