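import Pool.Agent.H96Dep.Defs

namespace Pool.Agent.H96Dep

open MeasureTheory ProbabilityTheory Filter Asymptotics

/-- sample space: independent bits -/
abbrev Bits (n : ℕ) := Fin n × Fin n → Bool

noncomputable def bitsLaw (n : ℕ) (p : unitInterval) : Measure (Bits n) :=
  Measure.infinitePi (fun _ : Fin n × Fin n => bernoulliMeasure true false p)

instance (n : ℕ) (p : unitInterval) : IsProbabilityMeasure (bitsLaw n p) := by
  unfold bitsLaw; infer_instance

/-- group index of the pair `u, v` -/
def idx {n : ℕ} (D : ℕ) (u v : Fin n) : Fin n × Fin n :=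
  (max u v, ⟨(min u v).val / D, lt_of_le_of_lt (Nat.div_le_self _ _) (min u v).isLt⟩)

lemma idx_comm {n : ℕ} (D : ℕ) (u v : Fin n) : idx D u v = idx D v u := by
  simp only [idx, max_comm u v, min_comm u v]

def gi {n : ℕ} (D : ℕ) : Sym2 (Fin n) → Fin n × Fin n :=
  Sym2.lift ⟨idx D, idx_comm D⟩

lemma gi_mk {n : ℕ} (D : ℕ) (u v : Fin n) : gi D s(u, v) = idx D u v := rfl

/-- the graph built from the bits -/
def graphOf {n : ℕ} (D : ℕ) (ω : Bits n) : SimpleGraph (Fin n) where
  Adj u v := u ≠ v ∧ ω (idx D u v) = true
  symm := ⟨fun u v h => ⟨h.1.symm, by rw [idx_comm]; exact h.2⟩⟩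
  loopless := ⟨fun u h => h.1 rfl⟩

lemma present_graphOf {n : ℕ} (D : ℕ) (ω : Bits n) (e : PotEdge n) :
    present e (graphOf D ω) ↔ ω (gi D e.1) = true := by
  obtain ⟨e, he⟩ := e
  induction e using Sym2.ind with
  | _ u v =>
    rw [Sym2.mk_isDiag_iff] at he
    simp only [present, SimpleGraph.mem_edgeSet, graphOf, gi_mk]
    exact ⟨fun h => h.2, fun h => ⟨he, h⟩⟩

lemma measurable_graphOf {n : ℕ} (D : ℕ) : Measurable (graphOf (n := n) D) :=
  Measurable.of_discrete

/-- the law of the graph -/
noncomputable def gm (n : ℕ) (p : unitInterval) (D : ℕ) : Measure (SimpleGraph (Fin n)) :=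
  (bitsLaw n p).map (graphOf D)

instance (n : ℕ) (p : unitInterval) (D : ℕ) : IsProbabilityMeasure (gm n p D) :=
  Measure.isProbabilityMeasure_map (measurable_graphOf D).aemeasurable

lemma gm_apply (n : ℕ) (p : unitInterval) (D : ℕ) (S : Set (SimpleGraph (Fin n))) :
    gm n p D S = bitsLaw n p (graphOf D ⁻¹' S) :=
  Measure.map_apply (measurable_graphOf D) (MeasurableSpace.measurableSet_top)

/-- all the bits in `s` are false -/
lemma bits_false (n : ℕ) (p : unitInterval) (s : Finset (Fin n × Fin n)) :
    (bitsLaw n p).real {ω | ∀ i ∈ s, ω i = false} = (1 - (p : ℝ)) ^ s.card := by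
  have hset : {ω : Bits n | ∀ i ∈ s, ω i = false} = Set.pi (s : Set (Fin n × Fin n))
      (fun _ => {false}) := by
    ext ω; simp
  rw [hset, measureReal_def, bitsLaw, Measure.infinitePi_pi _ (fun i _ => by
    exact MeasurableSet.of_discrete)]
  rw [ENNReal.toReal_prod, Finset.prod_congr rfl (g := fun _ => (1 - (p : ℝ)))]
  · simp
  · intro e he
    have := bernoulliMeasure_real_apply_of_notMem_of_mem (x := true) (y := false) p
      (s := {false}) MeasurableSet.of_discrete (by simp) (by simp)
    simpa [measureReal_def] using this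

lemma bit_true (n : ℕ) (p : unitInterval) (i : Fin n × Fin n) :
    bitsLaw n p {ω | ω i = true} = ENNReal.ofReal p := by
  have hset : {ω : Bits n | ω i = true} = Set.pi (({i} : Finset (Fin n × Fin n)) : Set (Fin n × Fin n))
      (fun _ => {true}) := by
    ext ω; simp
  rw [hset, bitsLaw, Measure.infinitePi_pi _ (fun i _ => by
    exact MeasurableSet.of_discrete)]
  rw [Finset.prod_singleton, bernoulliMeasure_apply_of_mem_of_notMem _ MeasurableSet.of_discrete
    (by simp) (by simp)]
  rw [ENNReal.ofReal]
  congr 1
  ext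
  simp [p.2.1]

/-- the dependency graph: same group -/
def depG (n D : ℕ) : SimpleGraph (PotEdge n) where
  Adj e f := e ≠ f ∧ gi D e.1 = gi D f.1
  symm := ⟨fun _ _ h => ⟨h.1.symm, h.2.symm⟩⟩
  loopless := ⟨fun _ h => h.1 rfl⟩

lemma gi_inj_aux {n D : ℕ} (hD : 0 < D) (e f : Sym2 (Fin n)) (h : gi D e = gi D f)
    (h' : e.inf.val % D = f.inf.val % D) : e = f := by
  induction e using Sym2.ind with
  | _ u v =>
    induction f using Sym2.ind with
    | _ x y =>
      rw [gi_mk, gi_mk] at h
      unfold idx at h
      have h1 : max u v = max x y := congrArg Prod.fst h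
      have h2 : (min u v).val / D = (min x y).val / D := by
        have := congrArg Prod.snd h
        exact congrArg Fin.val this
      have h3 : (min u v).val % D = (min x y).val % D := by
        simpa using h'
      have h4 : (min u v) = (min x y) := by
        apply Fin.ext
        rw [← Nat.div_add_mod (min u v).val D, ← Nat.div_add_mod (min x y).val D, h2, h3]
      rw [Sym2.eq_iff]
      rcases le_total u v with a | a <;> rcases le_total x y with b | b
      · rw [max_eq_right a, max_eq_right b] at h1
        rw [min_eq_left a, min_eq_left b] at h4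
        left; exact ⟨h4, h1⟩
      · rw [max_eq_right a, max_eq_left b] at h1
        rw [min_eq_left a, min_eq_right b] at h4
        right; exact ⟨h4, h1⟩
      · rw [max_eq_left a, max_eq_right b] at h1
        rw [min_eq_right a, min_eq_left b] at h4
        right; exact ⟨h1, h4⟩
      · rw [max_eq_left a, max_eq_left b] at h1
        rw [min_eq_right a, min_eq_right b] at h4
        left; exact ⟨h1, h4⟩

lemma depG_degree {n D : ℕ} (hD : 0 < D) (e : PotEdge n) :
    ((depG n D).neighborSet e).ncard ≤ D - 1 := by
  classical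
  -- the group of `e` has at most `D` elements
  have h1 : ({f : PotEdge n | gi D e.1 = gi D f.1}).ncard ≤ D := by
    have hinj : Set.InjOn (fun f : PotEdge n => f.1.inf.val % D)
        {f : PotEdge n | gi D e.1 = gi D f.1} := by
      intro f hf g hg hfg
      apply Subtype.ext
      exact gi_inj_aux hD f.1 g.1 (hf.symm.trans hg) hfg
    have h2 : (({f : PotEdge n | gi D e.1 = gi D f.1}).image
        (fun f : PotEdge n => f.1.inf.val % D)).ncard ≤ (Finset.range D : Set ℕ).ncard := by
      apply Set.ncard_le_ncard _ (Finset.finite_toSet _)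
      rintro _ ⟨f, _, rfl⟩
      simp only [Finset.coe_range, Set.mem_Iio]
      exact Nat.mod_lt _ hD
    rw [Set.InjOn.ncard_image hinj, Set.ncard_coe_finset, Finset.card_range] at h2
    exact h2
  have h3 : (depG n D).neighborSet e = {f : PotEdge n | gi D e.1 = gi D f.1} \ {e} := by
    ext f
    simp only [SimpleGraph.mem_neighborSet, depG, Set.mem_sdiff, Set.mem_ofPred_eq,
      Set.mem_singleton_iff]
    constructor
    · rintro ⟨h, h'⟩; exact ⟨h', fun h'' => h h''.symm⟩
    · rintro ⟨h, h'⟩; exact ⟨fun h'' => h' h''.symm, h⟩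
  rw [h3, Set.ncard_sdiff_singleton_of_mem (by rfl)]
  omega

theorem isDep_gm (n : ℕ) (p : unitInterval) {D d : ℕ} (hD : 0 < D) (hd : D ≤ d + 1) :
    IsDepRandomGraph n p d (gm n p D) := by
  classical
  refine ⟨inferInstance, fun e => ?_, depG n D, fun e => ?_, fun e => ?_⟩
  · rw [gm_apply]
    have : graphOf D ⁻¹' {G | present e G} = {ω : Bits n | ω (gi D e.1) = true} := by
      ext ω
      simp only [Set.mem_preimage, Set.mem_ofPred_eq]
      exact present_graphOf D ω e
    rw [this, bit_true]
  · exact (depG_degree hD e).trans (by omega)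
  · -- independence
    have hind : iIndepFun (fun (i : Fin n × Fin n) (ω : Bits n) => ω i) (bitsLaw n p) := by
      unfold bitsLaw
      exact iIndepFun_infinitePi (P := fun _ : Fin n × Fin n => bernoulliMeasure true false p)
        (X := fun _ b => b) (fun _ => measurable_id)
    have h2 := hind.indepFun_finset ({gi D e.1} : Finset (Fin n × Fin n))
      (Finset.univ \ {gi D e.1}) Finset.disjoint_sdiff (fun i => measurable_pi_apply i)
    have h3 : IndepFun (fun ω : Bits n => present e (graphOf D ω))
        (fun (ω : Bits n) (f : {f : PotEdge n // f ≠ e ∧ ¬ (depG n D).Adj e f}) =>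
          present f.1 (graphOf D ω)) (bitsLaw n p) := by
      have h4 := h2.comp
        (φ := fun x : (({gi D e.1} : Finset (Fin n × Fin n)) → Bool) =>
          (x ⟨gi D e.1, Finset.mem_singleton_self _⟩ = true : Prop))
        (ψ := fun (y : ((Finset.univ \ {gi D e.1} : Finset (Fin n × Fin n)) → Bool))
          (f : {f : PotEdge n // f ≠ e ∧ ¬ (depG n D).Adj e f}) =>
          (y ⟨gi D f.1.1, by
            have hf := f.2
            simp only [Finset.mem_sdiff, Finset.mem_univ, true_and, Finset.mem_singleton]
            intro hcon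
            exact hf.2 ⟨hf.1.symm, hcon.symm⟩⟩ = true : Prop)) Measurable.of_discrete
            Measurable.of_discrete
      convert h4 using 1
      · funext ω
        exact propext (present_graphOf D ω e)
      · funext ω f
        exact propext (present_graphOf D ω f.1)
    rw [indepFun_iff_measure_inter_preimage_eq_mul] at h3 ⊢
    intro s t hs ht
    rw [gm_apply, gm_apply, gm_apply]
    exact h3 s t hs ht

end Pool.Agent.H96Dep
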